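import Pool.Agent.Q231.FP.Weak

set_option autoImplicit false

/-!
# First-passage percolation on `ℤ²`: in the inner shape estimate any power of `t` suffices
-/

namespace Pool.Agent.Results.MP_de94ef_pr.InnerHalfSelfImproves

open MeasureTheory ProbabilityTheory Filter
open scoped Pointwise

/-- First-passage percolation on `ℤ²` with independent `Exp(1)` edge weights `X`, passage times
`T ω v = T(0, v)` and time constant `μ` (the hypotheses are those of the frozen statement). -/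
structure IsFirstPassage (Ω : Type) [MeasureSpace Ω] (X : Sym2 (ℤ × ℤ) → Ω → ℝ)
    (T : Ω → ℤ × ℤ → ℝ) (μ : ℝ × ℝ → ℝ) : Prop where
  meas : ∀ e, Measurable (X e)
  indep : iIndepFun X (volume : Measure Ω)
  law : ∀ e, Measure.map (X e) (volume : Measure Ω) = expMeasure 1
  time : ∀ ω v, T ω v = sInf {s : ℝ | ∃ n : ℕ, ∃ p : ℕ → ℤ × ℤ, p 0 = 0 ∧ p n = v ∧
      (∀ i < n, |(p (i + 1)).1 - (p i).1| + |(p (i + 1)).2 - (p i).2| = 1) ∧
      s = ∑ i ∈ Finset.range n, X s(p i, p (i + 1)) ω}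
  homog : ∀ (x : ℝ × ℝ) (c : ℝ), 0 ≤ c → μ (c • x) = c * μ x
  cont : Continuous μ
  lim : ∀ z : ℤ × ℤ, ∀ᵐ ω ∂(volume : Measure Ω),
      Tendsto (fun n : ℕ => T ω ((n : ℤ) • z) / (n : ℝ)) atTop
        (nhds (μ ((z.1 : ℝ), (z.2 : ℝ))))

/-- the fattened cluster at time `t` -/
def cluster {Ω : Type} (T : Ω → ℤ × ℤ → ℝ) (ω : Ω) (t : ℝ) : Set (ℝ × ℝ) :=
  {x | ∃ v : ℤ × ℤ, T ω v ≤ t ∧ |x.1 - (v.1 : ℝ)| ≤ 1 / 2 ∧ |x.2 - (v.2 : ℝ)| ≤ 1 / 2}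

/-- the inner half of Q1: `(1 - t^(-2/3+ζ)) t 𝔸 ⊆ A_t` up to superpolynomially small probability -/
def InnerHalf {Ω : Type} [MeasureSpace Ω] (T : Ω → ℤ × ℤ → ℝ) (μ : ℝ × ℝ → ℝ) : Prop :=
  ∀ ζ : ℝ, 0 < ζ → ζ < 2 / 3 → ∀ q : ℝ, 0 < q → Asymptotics.IsBigO atTop
    (fun t : ℝ => ((volume : Measure Ω) {ω | ¬ (((1 - t ^ (-(2 / 3 : ℝ) + ζ)) * t) •
      {x : ℝ × ℝ | μ x ≤ 1} ⊆ cluster T ω t)}).toReal)
    (fun t : ℝ => t ^ (-q))

/-- the inner estimate with some negative power of `t`, for every `ζ` -/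
def InnerPolynomial {Ω : Type} [MeasureSpace Ω] (T : Ω → ℤ × ℤ → ℝ) (μ : ℝ × ℝ → ℝ) : Prop :=
  ∀ ζ : ℝ, 0 < ζ → ζ < 2 / 3 → ∃ a : ℝ, 0 < a ∧ Asymptotics.IsBigO atTop
    (fun t : ℝ => ((volume : Measure Ω) {ω | ¬ (((1 - t ^ (-(2 / 3 : ℝ) + ζ)) * t) •
      {x : ℝ × ℝ | μ x ≤ 1} ⊆ cluster T ω t)}).toReal)
    (fun t : ℝ => t ^ (-a))

open Pool.Agent.Q231.FP

lemma toFPP {Ω : Type} [MeasureSpace Ω] {X : Sym2 (ℤ × ℤ) → Ω → ℝ}
    {T : Ω → ℤ × ℤ → ℝ} {μ : ℝ × ℝ → ℝ} (h : IsFirstPassage Ω X T μ) :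
    (∀ ω v, T ω v = tau (fld X ω) Set.univ 0 v) ∧ IsFPP (volume : Measure Ω) X μ := by
  have hT : ∀ ω v, T ω v = tau (fld X ω) Set.univ 0 v := by
    intro ω v
    rw [h.time]
    unfold tau sums fld Adj
    simp
  refine ⟨hT, ⟨h.meas, h.indep, h.law⟩, h.homog, h.cont, fun z => ?_⟩
  have := h.lim z
  simp only [hT] at this
  exact this

/-- The inner half of Q1 holds if and only if for every `ζ` the probability that the inner
estimate fails is `O(t^(-a))` for some `a > 0`. -/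
theorem result (Ω : Type) [MeasureSpace Ω] (X : Sym2 (ℤ × ℤ) → Ω → ℝ)
    (T : Ω → ℤ × ℤ → ℝ) (μ : ℝ × ℝ → ℝ) (h : IsFirstPassage Ω X T μ) :
    InnerHalf T μ ↔ InnerPolynomial T μ := by
  obtain ⟨hT, hF⟩ := toFPP h
  have e1 : InnerHalf T μ ↔ Pool.Agent.Q231.FP.Inner (volume : Measure Ω) X μ := by
    unfold InnerHalf Pool.Agent.Q231.FP.Inner BI fat cluster
    simp only [hT]
  have e2 : InnerPolynomial T μ ↔ InnerPoly (volume : Measure Ω) X μ := by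
    unfold InnerPolynomial InnerPoly BI fat cluster
    simp only [hT]
  rw [e1, e2]
  exact hF.inner_iff_poly

end Pool.Agent.Results.MP_de94ef_pr.InnerHalfSelfImproves
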