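import Pool.Agent.Q231.FP.Mean

set_option autoImplicit false

/-!
# First-passage percolation on `ℤ²`: Q1 is its outer half together with a bound for the means
-/

namespace Pool.Agent.Results.MP_de94ef_pr.OuterHalfPlusMean

open MeasureTheory ProbabilityTheory Filter
open scoped Pointwise

/-- First-passage percolation on `ℤ²` with independent `Exp(1)` edge weights `X`, passage times
`T ω v = T(0, v)` and time constant `μ` (the hypotheses are those of the frozen statement). -/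
structure IsFirstPassage (Ω : Type) [MeasureSpace Ω] (X : Sym2 (ℤ × ℤ) → Ω → ℝ)
    (T : Ω → ℤ × ℤ → ℝ) (μ : ℝ × ℝ → ℝ) : Prop where
  meas : ∀ e, Measurable (X e)
  indep : iIndepFun X (volume : Measure Ω)
  law : ∀ e, Measure.map (X e) (volume : Measure Ω) = expMeasure 1
  time : ∀ ω v, T ω v = sInf {s : ℝ | ∃ n : ℕ, ∃ p : ℕ → ℤ × ℤ, p 0 = 0 ∧ p n = v ∧
      (∀ i < n, |(p (i + 1)).1 - (p i).1| + |(p (i + 1)).2 - (p i).2| = 1) ∧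
      s = ∑ i ∈ Finset.range n, X s(p i, p (i + 1)) ω}
  homog : ∀ (x : ℝ × ℝ) (c : ℝ), 0 ≤ c → μ (c • x) = c * μ x
  cont : Continuous μ
  lim : ∀ z : ℤ × ℤ, ∀ᵐ ω ∂(volume : Measure Ω),
      Tendsto (fun n : ℕ => T ω ((n : ℤ) • z) / (n : ℝ)) atTop
        (nhds (μ ((z.1 : ℝ), (z.2 : ℝ))))

/-- the fattened cluster at time `t` -/
def cluster {Ω : Type} (T : Ω → ℤ × ℤ → ℝ) (ω : Ω) (t : ℝ) : Set (ℝ × ℝ) :=
  {x | ∃ v : ℤ × ℤ, T ω v ≤ t ∧ |x.1 - (v.1 : ℝ)| ≤ 1 / 2 ∧ |x.2 - (v.2 : ℝ)| ≤ 1 / 2}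

/-- the probability that `A_t ⊆ (1 + t^(-2/3+ζ)) t 𝔸` fails -/
noncomputable def outerFails {Ω : Type} [MeasureSpace Ω] (T : Ω → ℤ × ℤ → ℝ) (μ : ℝ × ℝ → ℝ)
    (ζ t : ℝ) : ℝ :=
  ((volume : Measure Ω) {ω | ¬ (cluster T ω t ⊆
    ((1 + t ^ (-(2 / 3 : ℝ) + ζ)) * t) • {x : ℝ × ℝ | μ x ≤ 1})}).toReal

/-- the probability that `(1 - t^(-2/3+ζ)) t 𝔸 ⊆ A_t` fails -/
noncomputable def innerFails {Ω : Type} [MeasureSpace Ω] (T : Ω → ℤ × ℤ → ℝ) (μ : ℝ × ℝ → ℝ)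
    (ζ t : ℝ) : ℝ :=
  ((volume : Measure Ω) {ω | ¬ (((1 - t ^ (-(2 / 3 : ℝ) + ζ)) * t) •
    {x : ℝ × ℝ | μ x ≤ 1} ⊆ cluster T ω t)}).toReal

/-- Q1: both probabilities are `O(t^(-q))` for all `ζ ∈ (0, 2/3)` and `q > 0` -/
def Q1 {Ω : Type} [MeasureSpace Ω] (T : Ω → ℤ × ℤ → ℝ) (μ : ℝ × ℝ → ℝ) : Prop :=
  ∀ ζ : ℝ, 0 < ζ → ζ < 2 / 3 → ∀ q : ℝ, 0 < q →
    Asymptotics.IsBigO atTop (fun t : ℝ => outerFails T μ ζ t) (fun t : ℝ => t ^ (-q)) ∧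
    Asymptotics.IsBigO atTop (fun t : ℝ => innerFails T μ ζ t) (fun t : ℝ => t ^ (-q))

/-- the outer half of Q1 -/
def OuterHalf {Ω : Type} [MeasureSpace Ω] (T : Ω → ℤ × ℤ → ℝ) (μ : ℝ × ℝ → ℝ) : Prop :=
  ∀ ζ : ℝ, 0 < ζ → ζ < 2 / 3 → ∀ q : ℝ, 0 < q →
    Asymptotics.IsBigO atTop (fun t : ℝ => outerFails T μ ζ t) (fun t : ℝ => t ^ (-q))

/-- `E T(0,v) ≤ μ(v) + C (1 + |v|₁)^(1/3+ε)` for every `ε > 0` -/
def MeanBound {Ω : Type} [MeasureSpace Ω] (T : Ω → ℤ × ℤ → ℝ) (μ : ℝ × ℝ → ℝ) : Prop :=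
  ∀ ε : ℝ, 0 < ε → ∃ C : ℝ, ∀ v : ℤ × ℤ,
    ∫ ω, T ω v ≤ μ ((v.1 : ℝ), (v.2 : ℝ)) + C * (1 + (|(v.1 : ℝ)| + |(v.2 : ℝ)|)) ^ (1 / 3 + ε)

open Pool.Agent.Q231.FP

lemma toFPP {Ω : Type} [MeasureSpace Ω] {X : Sym2 (ℤ × ℤ) → Ω → ℝ}
    {T : Ω → ℤ × ℤ → ℝ} {μ : ℝ × ℝ → ℝ} (h : IsFirstPassage Ω X T μ) :
    (∀ ω v, T ω v = tau (fld X ω) Set.univ 0 v) ∧ IsFPP (volume : Measure Ω) X μ := by
  have hT : ∀ ω v, T ω v = tau (fld X ω) Set.univ 0 v := by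
    intro ω v
    rw [h.time]
    unfold tau sums fld Adj
    simp
  refine ⟨hT, ⟨h.meas, h.indep, h.law⟩, h.homog, h.cont, fun z => ?_⟩
  have := h.lim z
  simp only [hT] at this
  exact this

/-- Q1 holds if and only if its outer half holds and the means satisfy
`E T(0,v) ≤ μ(v) + |v|^(1/3+o(1))`. -/
theorem result (Ω : Type) [MeasureSpace Ω] (X : Sym2 (ℤ × ℤ) → Ω → ℝ)
    (T : Ω → ℤ × ℤ → ℝ) (μ : ℝ × ℝ → ℝ) (h : IsFirstPassage Ω X T μ) :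
    Q1 T μ ↔ (OuterHalf T μ ∧ MeanBound T μ) := by
  obtain ⟨hT, hF⟩ := toFPP h
  have hn : ∀ v : ℤ × ℤ, |(v.1 : ℝ)| + |(v.2 : ℝ)| = (l1 v : ℝ) := fun v => (nm_cv v)
  have a1 : ∀ ζ t : ℝ, outerFails T μ ζ t = ((volume : Measure Ω) (BO X μ ζ t)).toReal := by
    intro ζ t
    unfold outerFails BO fat cluster
    simp only [hT]
  have a2 : ∀ ζ t : ℝ, innerFails T μ ζ t = ((volume : Measure Ω) (BI X μ ζ t)).toReal := by
    intro ζ t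
    unfold innerFails BI fat cluster
    simp only [hT]
  have e1 : Q1 T μ ↔ (Outer (volume : Measure Ω) X μ ∧
      Pool.Agent.Q231.FP.Inner (volume : Measure Ω) X μ) := by
    unfold Q1 Outer Pool.Agent.Q231.FP.Inner
    simp only [a1, a2]
    exact ⟨fun g => ⟨fun ζ h1 h2 q h3 => (g ζ h1 h2 q h3).1, fun ζ h1 h2 q h3 =>
      (g ζ h1 h2 q h3).2⟩, fun g ζ h1 h2 q h3 => ⟨g.1 ζ h1 h2 q h3, g.2 ζ h1 h2 q h3⟩⟩
  have e2 : OuterHalf T μ ↔ Outer (volume : Measure Ω) X μ := by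
    unfold OuterHalf Outer
    simp only [a1]
  have pos : ∀ (v : ℤ × ℤ) (a : ℝ), 0 ≤ (1 + (l1 v : ℝ)) ^ a := fun v a => by positivity
  have e3 : MeanBound T μ ↔ MeanUp (volume : Measure Ω) X μ (1 / 3) := by
    unfold MeanBound MeanUp
    simp only [hT, hn]
    constructor
    · intro H ε hε
      obtain ⟨C, hC⟩ := H ε hε
      refine ⟨max C 0, le_max_right _ _, fun v => (hC v).trans ?_⟩
      have := mul_le_mul_of_nonneg_right (le_max_left C 0) (pos v (1 / 3 + ε))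
      simp only [cv]
      linarith
    · intro H ε hε
      obtain ⟨C, -, hC⟩ := H ε hε
      exact ⟨C, fun v => hC v⟩
  rw [e1, e2, e3]
  exact hF.both_iff

end Pool.Agent.Results.MP_de94ef_pr.OuterHalfPlusMean
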