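import Pool.Agent.Q231.FP.Sparse2

set_option autoImplicit false

/-!
# First-passage percolation on `ℤ²`: Q1 may be tested along any sequence of times whose
logarithms grow regularly
-/

namespace Pool.Agent.Results.MP_de94ef_pr.SparseTimes

open MeasureTheory ProbabilityTheory Filter
open scoped Pointwise

/-- First-passage percolation on `ℤ²` with independent `Exp(1)` edge weights `X`, passage times
`T ω v = T(0, v)` and time constant `μ` (the hypotheses are those of the frozen statement). -/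
structure IsFirstPassage (Ω : Type) [MeasureSpace Ω] (X : Sym2 (ℤ × ℤ) → Ω → ℝ)
    (T : Ω → ℤ × ℤ → ℝ) (μ : ℝ × ℝ → ℝ) : Prop where
  meas : ∀ e, Measurable (X e)
  indep : iIndepFun X (volume : Measure Ω)
  law : ∀ e, Measure.map (X e) (volume : Measure Ω) = expMeasure 1
  time : ∀ ω v, T ω v = sInf {s : ℝ | ∃ n : ℕ, ∃ p : ℕ → ℤ × ℤ, p 0 = 0 ∧ p n = v ∧
      (∀ i < n, |(p (i + 1)).1 - (p i).1| + |(p (i + 1)).2 - (p i).2| = 1) ∧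
      s = ∑ i ∈ Finset.range n, X s(p i, p (i + 1)) ω}
  homog : ∀ (x : ℝ × ℝ) (c : ℝ), 0 ≤ c → μ (c • x) = c * μ x
  cont : Continuous μ
  lim : ∀ z : ℤ × ℤ, ∀ᵐ ω ∂(volume : Measure Ω),
      Tendsto (fun n : ℕ => T ω ((n : ℤ) • z) / (n : ℝ)) atTop
        (nhds (μ ((z.1 : ℝ), (z.2 : ℝ))))

/-- the fattened cluster at time `t` -/
def cluster {Ω : Type} (T : Ω → ℤ × ℤ → ℝ) (ω : Ω) (t : ℝ) : Set (ℝ × ℝ) :=
  {x | ∃ v : ℤ × ℤ, T ω v ≤ t ∧ |x.1 - (v.1 : ℝ)| ≤ 1 / 2 ∧ |x.2 - (v.2 : ℝ)| ≤ 1 / 2}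

/-- the probability that `A_t ⊆ (1 + t^(-2/3+ζ)) t 𝔸` fails -/
noncomputable def outerFails {Ω : Type} [MeasureSpace Ω] (T : Ω → ℤ × ℤ → ℝ) (μ : ℝ × ℝ → ℝ)
    (ζ t : ℝ) : ℝ :=
  ((volume : Measure Ω) {ω | ¬ (cluster T ω t ⊆
    ((1 + t ^ (-(2 / 3 : ℝ) + ζ)) * t) • {x : ℝ × ℝ | μ x ≤ 1})}).toReal

/-- the probability that `(1 - t^(-2/3+ζ)) t 𝔸 ⊆ A_t` fails -/
noncomputable def innerFails {Ω : Type} [MeasureSpace Ω] (T : Ω → ℤ × ℤ → ℝ) (μ : ℝ × ℝ → ℝ)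
    (ζ t : ℝ) : ℝ :=
  ((volume : Measure Ω) {ω | ¬ (((1 - t ^ (-(2 / 3 : ℝ) + ζ)) * t) •
    {x : ℝ × ℝ | μ x ≤ 1} ⊆ cluster T ω t)}).toReal

/-- Q1: both probabilities are `O(t^(-q))` for all `ζ ∈ (0, 2/3)` and `q > 0` -/
def Q1 {Ω : Type} [MeasureSpace Ω] (T : Ω → ℤ × ℤ → ℝ) (μ : ℝ × ℝ → ℝ) : Prop :=
  ∀ ζ : ℝ, 0 < ζ → ζ < 2 / 3 → ∀ q : ℝ, 0 < q →
    Asymptotics.IsBigO atTop (fun t : ℝ => outerFails T μ ζ t) (fun t : ℝ => t ^ (-q)) ∧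
    Asymptotics.IsBigO atTop (fun t : ℝ => innerFails T μ ζ t) (fun t : ℝ => t ^ (-q))

/-- the same estimates at the times `s 0, s 1, s 2, …` only -/
def Q1Along {Ω : Type} [MeasureSpace Ω] (T : Ω → ℤ × ℤ → ℝ) (μ : ℝ × ℝ → ℝ) (s : ℕ → ℝ) :
    Prop :=
  ∀ ζ : ℝ, 0 < ζ → ζ < 2 / 3 → ∀ q : ℝ, 0 < q →
    Asymptotics.IsBigO atTop (fun k : ℕ => outerFails T μ ζ (s k)) (fun k : ℕ => s k ^ (-q)) ∧
    Asymptotics.IsBigO atTop (fun k : ℕ => innerFails T μ ζ (s k)) (fun k : ℕ => s k ^ (-q))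

open Pool.Agent.Q231.FP

lemma toFPP {Ω : Type} [MeasureSpace Ω] {X : Sym2 (ℤ × ℤ) → Ω → ℝ}
    {T : Ω → ℤ × ℤ → ℝ} {μ : ℝ × ℝ → ℝ} (h : IsFirstPassage Ω X T μ) :
    (∀ ω v, T ω v = tau (fld X ω) Set.univ 0 v) ∧ IsFPP (volume : Measure Ω) X μ := by
  have hT : ∀ ω v, T ω v = tau (fld X ω) Set.univ 0 v := by
    intro ω v
    rw [h.time]
    unfold tau sums fld Adj
    simp
  refine ⟨hT, ⟨h.meas, h.indep, h.law⟩, h.homog, h.cont, fun z => ?_⟩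
  have := h.lim z
  simp only [hT] at this
  exact this

/-- Let `s k → ∞` with `log (s (k+1)) / log (s k) → 1` (for instance `s k = exp (√k)`, `2^k` or
`exp (k^10)`). Then Q1 holds if and only if its estimates hold along the times `s k`. -/
theorem result (Ω : Type) [MeasureSpace Ω] (X : Sym2 (ℤ × ℤ) → Ω → ℝ)
    (T : Ω → ℤ × ℤ → ℝ) (μ : ℝ × ℝ → ℝ) (h : IsFirstPassage Ω X T μ)
    (s : ℕ → ℝ) (hs : Tendsto s atTop atTop)
    (hr : Tendsto (fun k => Real.log (s (k + 1)) / Real.log (s k)) atTop (nhds 1)) :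
    Q1 T μ ↔ Q1Along T μ s := by
  obtain ⟨hT, hF⟩ := toFPP h
  have a1 : ∀ ζ t : ℝ, outerFails T μ ζ t = ((volume : Measure Ω) (BO X μ ζ t)).toReal := by
    intro ζ t
    unfold outerFails BO fat cluster
    simp only [hT]
  have a2 : ∀ ζ t : ℝ, innerFails T μ ζ t = ((volume : Measure Ω) (BI X μ ζ t)).toReal := by
    intro ζ t
    unfold innerFails BI fat cluster
    simp only [hT]
  have e1 : Q1 T μ ↔ (Outer (volume : Measure Ω) X μ ∧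
      Pool.Agent.Q231.FP.Inner (volume : Measure Ω) X μ) := by
    unfold Q1 Outer Pool.Agent.Q231.FP.Inner
    simp only [a1, a2]
    exact ⟨fun g => ⟨fun ζ h1 h2 q h3 => (g ζ h1 h2 q h3).1, fun ζ h1 h2 q h3 =>
      (g ζ h1 h2 q h3).2⟩, fun g ζ h1 h2 q h3 => ⟨g.1 ζ h1 h2 q h3, g.2 ζ h1 h2 q h3⟩⟩
  have e2 : Q1Along T μ s ↔ (OuterAlong (volume : Measure Ω) X μ s ∧
      InnerAlong (volume : Measure Ω) X μ s) := by
    unfold Q1Along OuterAlong InnerAlong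
    simp only [a1, a2]
    exact ⟨fun g => ⟨fun ζ h1 h2 q h3 => (g ζ h1 h2 q h3).1, fun ζ h1 h2 q h3 =>
      (g ζ h1 h2 q h3).2⟩, fun g ζ h1 h2 q h3 => ⟨g.1 ζ h1 h2 q h3, g.2 ζ h1 h2 q h3⟩⟩
  rw [e1, e2]
  exact hF.both_along hs hr

end Pool.Agent.Results.MP_de94ef_pr.SparseTimes
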